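import Pool.Agent.helper95.PY2.Spec

set_option autoImplicit false

open Finset

namespace Pool.Agent.PY2

/-- orthogonality -/
theorem DIL_sum (p : ℕ) [Fact p.Prime] (u v : ZMod p) :
    ∑ x : ZMod p, ps (u * x) * (starRingEnd ℂ) (ps (v * x)) = if u = v then (p : ℂ) else 0 := by
  have h1 : ∀ x : ZMod p, ps (u * x) * (starRingEnd ℂ) (ps (v * x)) =
      (ZMod.stdAddChar (x * (u - v)) : ℂ) := by
    intro x
    unfold ps
    rw [← AddChar.map_neg_eq_conj, ← AddChar.map_add_eq_mul]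
    have e : u * x + -(v * x) = x * (u - v) := by ring
    rw [e]
  rw [Finset.sum_congr rfl fun x _ => h1 x,
    AddChar.sum_mulShift (u - v) (ZMod.isPrimitive_stdAddChar p), ZMod.card]
  by_cases h : u = v
  · rw [if_pos h, if_pos (sub_eq_zero.2 h)]
  · rw [if_neg h, if_neg (fun h' => h (sub_eq_zero.1 h')), Nat.cast_zero]

/-- Parseval -/
theorem DIL_orth (p : ℕ) [Fact p.Prime] (Z : Finset ℤ)
    (hZ : ∀ ξ ∈ Z, ∀ η ∈ Z, ((ξ : ℤ) : ZMod p) = ((η : ℤ) : ZMod p) → ξ = η) (A : ℤ → ℂ) :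
    ∑ x : ZMod p, ‖∑ ξ ∈ Z, A ξ * ps (((ξ : ℤ) : ZMod p) * x)‖ ^ 2 =
      p * ∑ ξ ∈ Z, ‖A ξ‖ ^ 2 := by
  have h : (((∑ x : ZMod p, ‖∑ ξ ∈ Z, A ξ * ps (((ξ : ℤ) : ZMod p) * x)‖ ^ 2 : ℝ)) : ℂ) =
      ((p * ∑ ξ ∈ Z, ‖A ξ‖ ^ 2 : ℝ) : ℂ) := by
    push_cast
    have h1 : ∀ x : ZMod p,
        ((‖∑ ξ ∈ Z, A ξ * ps (((ξ : ℤ) : ZMod p) * x)‖ : ℝ) : ℂ) ^ 2 =
        ∑ ξ ∈ Z, ∑ η ∈ Z, A ξ * (starRingEnd ℂ) (A η) *
          (ps (((ξ : ℤ) : ZMod p) * x) * (starRingEnd ℂ) (ps (((η : ℤ) : ZMod p) * x))) := by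
      intro x
      rw [← Complex.mul_conj', map_sum, Finset.sum_mul_sum]
      refine Finset.sum_congr rfl fun ξ _ => Finset.sum_congr rfl fun η _ => ?_
      rw [map_mul]
      ring
    rw [Finset.sum_congr rfl fun x _ => h1 x, Finset.sum_comm, Finset.mul_sum]
    refine Finset.sum_congr rfl fun ξ hξ => ?_
    rw [Finset.sum_comm]
    have h2 : ∀ η ∈ Z, ∑ x : ZMod p, A ξ * (starRingEnd ℂ) (A η) *
          (ps (((ξ : ℤ) : ZMod p) * x) * (starRingEnd ℂ) (ps (((η : ℤ) : ZMod p) * x))) =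
        if ξ = η then A ξ * (starRingEnd ℂ) (A η) * p else 0 := by
      intro η hη
      rw [← Finset.mul_sum, DIL_sum]
      by_cases h3 : ξ = η
      · rw [if_pos h3, if_pos (by rw [h3])]
      · rw [if_neg h3, if_neg (fun h4 => h3 (hZ ξ hξ η hη h4)), mul_zero]
    rw [Finset.sum_congr rfl h2, Finset.sum_ite_eq, if_pos hξ, Complex.mul_conj']
    ring
  exact_mod_cast h

theorem DIL : DIL_stmt := by
  intro p _ L R T a hR hLR hT
  set S : Finset (ℕ × ℤ) := Icc 1 L ×ˢ Ioo (-(R : ℤ)) R with hS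
  set Z : Finset ℤ := Ioo (-((L * R : ℕ) : ℤ)) ((L * R : ℕ) : ℤ) with hZ
  let g : ℕ × ℤ → ℤ := fun z => (z.1 : ℤ) * z.2
  let A : ℤ → ℂ := fun ξ => ∑ z ∈ S.filter (fun z => g z = ξ), a z.1 z.2
  have hmem : ∀ z ∈ S, g z ∈ Z := by
    intro z hz
    rw [hS, mem_product, mem_Icc, mem_Ioo] at hz
    obtain ⟨⟨h1, h2⟩, h3, h4⟩ := hz
    rw [hZ, mem_Ioo]
    have h1' : (1 : ℤ) ≤ z.1 := by exact_mod_cast h1
    have h2' : (z.1 : ℤ) ≤ L := by exact_mod_cast h2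
    change -(((L * R : ℕ) : ℤ)) < (z.1 : ℤ) * z.2 ∧ (z.1 : ℤ) * z.2 < ((L * R : ℕ) : ℤ)
    push_cast
    constructor <;> nlinarith
  -- rewrite the sum
  have hsum : ∀ x : ZMod p, ∑ h ∈ Icc 1 L, ∑ f ∈ Ioo (-(R : ℤ)) R,
      a h f * ps ((h : ZMod p) * (f : ZMod p) * x) =
      ∑ ξ ∈ Z, A ξ * ps (((ξ : ℤ) : ZMod p) * x) := by
    intro x
    rw [← Finset.sum_product', ← Finset.sum_fiberwise_of_maps_to hmem]
    refine Finset.sum_congr rfl fun ξ _ => ?_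
    change _ = (∑ z ∈ S.filter (fun z => g z = ξ), a z.1 z.2) * _
    rw [Finset.sum_mul]
    refine Finset.sum_congr rfl fun z hz => ?_
    have h1 : g z = ξ := (mem_filter.1 hz).2
    rw [← h1]
    change _ = a z.1 z.2 * ps ((((z.1 : ℤ) * z.2 : ℤ) : ZMod p) * x)
    push_cast
    rfl
  have hinj : ∀ ξ ∈ Z, ∀ η ∈ Z, ((ξ : ℤ) : ZMod p) = ((η : ℤ) : ZMod p) → ξ = η := by
    intro ξ hξ η hη h
    rw [hZ, mem_Ioo] at hξ hη
    rw [ZMod.intCast_eq_intCast_iff_dvd_sub] at h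
    have h2 : η - ξ = 0 := by
      refine Int.eq_zero_of_abs_lt_dvd h ?_
      rw [abs_lt]
      have : (2 * ((L * R : ℕ) : ℤ)) < p := by exact_mod_cast hLR
      constructor <;> omega
    omega
  rw [Finset.sum_congr rfl fun x _ => by rw [hsum x], DIL_orth p Z hinj A]
  refine mul_le_mul_of_nonneg_left ?_ (Nat.cast_nonneg p)
  -- the coefficients
  have hA0 : A 0 = ∑ h ∈ Icc 1 L, a h 0 := by
    change ∑ z ∈ S.filter (fun z => g z = 0), a z.1 z.2 = _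
    symm
    refine Finset.sum_bij (fun h _ => (h, (0 : ℤ))) ?_ ?_ ?_ ?_
    · intro h hh
      rw [mem_filter, hS, mem_product, mem_Ioo]
      exact ⟨⟨hh, by omega, by omega⟩, mul_zero _⟩
    · intro h1 _ h2 _ he
      exact (Prod.mk.inj he).1
    · intro z hz
      rw [mem_filter, hS, mem_product, mem_Icc] at hz
      refine ⟨z.1, mem_Icc.2 hz.1.1, ?_⟩
      have h1 : (z.1 : ℤ) * z.2 = 0 := hz.2
      have h2 : (z.1 : ℤ) ≠ 0 := by
        have := hz.1.1.1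
        omega
      have h3 : z.2 = 0 := by
        rcases mul_eq_zero.1 h1 with h | h
        · exact absurd h h2
        · exact h
      exact Prod.ext rfl h3.symm
    · intro h _
      rfl
  have hcs : ∀ ξ ∈ Z, ξ ≠ 0 → ‖A ξ‖ ^ 2 ≤
      T * ∑ z ∈ S.filter (fun z => g z = ξ), ‖a z.1 z.2‖ ^ 2 := by
    intro ξ hξ hξ0
    have hcard : (S.filter (fun z => g z = ξ)).card ≤ T := by
      have h1 : 1 ≤ ξ.natAbs := by omega
      have h2 : ξ.natAbs ≤ L * R := by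
        rw [hZ, mem_Ioo] at hξ
        omega
      refine le_trans ?_ (hT ξ.natAbs h1 h2)
      refine Finset.card_le_card_of_injOn (fun z => z.1) ?_ ?_
      · intro z hz
        have hz' := (mem_filter.1 (mem_coe.1 hz)).2
        have h3 : (z.1 : ℤ) * z.2 = ξ := hz'
        rw [mem_coe, Nat.mem_divisors]
        refine ⟨?_, by omega⟩
        have h4 : (z.1 : ℤ) ∣ ξ := ⟨z.2, h3.symm⟩
        exact Int.natCast_dvd.1 h4
      · intro z hz z' hz' he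
        have h3 : (z.1 : ℤ) * z.2 = ξ := (mem_filter.1 (mem_coe.1 hz)).2
        have h4 : (z'.1 : ℤ) * z'.2 = ξ := (mem_filter.1 (mem_coe.1 hz')).2
        have he' : z.1 = z'.1 := he
        rw [← he'] at h4
        have h5 : (z.1 : ℤ) ≠ 0 := by
          intro h6
          rw [h6, zero_mul] at h3
          exact hξ0 h3.symm
        exact Prod.ext he' (mul_left_cancel₀ h5 (h3.trans h4.symm))
    have h1 : ‖A ξ‖ ≤ ∑ z ∈ S.filter (fun z => g z = ξ), ‖a z.1 z.2‖ := norm_sum_le _ _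
    calc ‖A ξ‖ ^ 2 ≤ (∑ z ∈ S.filter (fun z => g z = ξ), ‖a z.1 z.2‖) ^ 2 :=
          pow_le_pow_left₀ (norm_nonneg _) h1 2
      _ ≤ (S.filter (fun z => g z = ξ)).card *
          ∑ z ∈ S.filter (fun z => g z = ξ), ‖a z.1 z.2‖ ^ 2 := sq_sum_le_card_mul_sum_sq
      _ ≤ _ := by
          refine mul_le_mul_of_nonneg_right (by exact_mod_cast hcard)
            (Finset.sum_nonneg fun _ _ => by positivity)
  have hle : ∀ ξ ∈ Z, ‖A ξ‖ ^ 2 ≤ (if ξ = 0 then ‖A 0‖ ^ 2 else 0) +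
      T * ∑ z ∈ S.filter (fun z => g z = ξ), ‖a z.1 z.2‖ ^ 2 := by
    intro ξ hξ
    by_cases h0 : ξ = 0
    · rw [if_pos h0, h0]
      have : 0 ≤ (T : ℝ) * ∑ z ∈ S.filter (fun z => g z = 0), ‖a z.1 z.2‖ ^ 2 :=
        mul_nonneg (Nat.cast_nonneg _) (Finset.sum_nonneg fun _ _ => by positivity)
      linarith
    · rw [if_neg h0, zero_add]
      exact hcs ξ hξ h0
  refine (Finset.sum_le_sum hle).trans ?_
  rw [Finset.sum_add_distrib, ← Finset.mul_sum, Finset.sum_fiberwise_of_maps_to hmem, hA0,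
    Finset.sum_product]
  refine add_le_add_left ?_ _
  rw [Finset.sum_ite_eq']
  split_ifs
  · exact le_rfl
  · positivity

end Pool.Agent.PY2
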